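import Pool.Agent.H474.MS.Stm
import Pool.Graph.R_pool_sql_team_seeded_3997aac3.Q128.GM.Core

/-!
# MS-L7: Karamata's Tauberian theorem for a Gaussian kernel

If `y G(y) → c` as `y → 0+` then `A(T)/T → c √(2/π)`.
-/

set_option autoImplicit false

open MeasureTheory Filter Topology Set

namespace Pool.Agent.H664.MS.L7

open Pool.Agent.H474.MS

/-- the Gaussian -/
noncomputable def z (x : ℝ) : ℝ := Real.exp (-(x ^ 2 / 2))

lemma z_cont : Continuous z := by unfold z; fun_prop

lemma z_pos (x : ℝ) : 0 < z x := Real.exp_pos _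

lemma z_le (x : ℝ) : z x ≤ 1 := by
  unfold z
  exact Real.exp_le_one_iff.2 (by have := sq_nonneg x; linarith)

lemma z_pow (x : ℝ) (k : ℕ) : z x * z x ^ k = Real.exp (-(((k : ℝ) + 1) * x ^ 2 / 2)) := by
  unfold z
  rw [← pow_succ', ← Real.exp_nat_mul]
  congr 1
  push_cast
  ring

lemma sq_z (x : ℝ) : x ^ 2 * z x ≤ 1 := by
  unfold z
  rw [Real.exp_neg, ← div_eq_mul_inv, div_le_one (Real.exp_pos _)]
  have h1 := Real.quadratic_le_exp_of_nonneg (show (0 : ℝ) ≤ x ^ 2 / 2 by positivity)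
  nlinarith [sq_nonneg (x ^ 2 / 2 - 1), sq_nonneg x]

section

variable {ι : Type} (w g : ι → ℝ)

/-- the measure `∑ w_i g_i² / T · δ_{g_i / T}` -/
noncomputable def m (T : ℝ) : Measure ℝ :=
  Measure.sum fun i => ENNReal.ofReal (w i * g i ^ 2 / T) • Measure.dirac (g i / T)

variable {w g}

lemma coef_nonneg (h : Dat w g) {T : ℝ} (hT : 0 < T) (i : ι) : 0 ≤ w i * g i ^ 2 / T := by
  have := h.w0 i
  positivity

lemma summ (h : Dat w g) {T : ℝ} (hT : 0 < T) :
    Summable fun i => w i * g i ^ 2 / T * z (g i / T) := by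
  refine Summable.of_nonneg_of_le (fun i => ?_) (fun i => ?_) (h.ws.mul_left T)
  · exact mul_nonneg (coef_nonneg h hT i) (z_pos _).le
  · have h1 := sq_z (g i / T)
    have h2 := h.w0 i
    calc w i * g i ^ 2 / T * z (g i / T) = T * w i * ((g i / T) ^ 2 * z (g i / T)) := by
          field_simp
      _ ≤ T * w i * 1 := by
          exact mul_le_mul_of_nonneg_left h1 (by positivity)
      _ = T * w i := mul_one _

lemma summ_k (h : Dat w g) {T : ℝ} (hT : 0 < T) (k : ℕ) :
    Summable fun i => w i * g i ^ 2 / T * (z (g i / T) * z (g i / T) ^ k) := by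
  refine Summable.of_nonneg_of_le (fun i => ?_) (fun i => ?_) (summ h hT)
  · exact mul_nonneg (coef_nonneg h hT i) (mul_nonneg (z_pos _).le (pow_nonneg (z_pos _).le _))
  · refine mul_le_mul_of_nonneg_left ?_ (coef_nonneg h hT i)
    calc z (g i / T) * z (g i / T) ^ k ≤ z (g i / T) * 1 :=
          mul_le_mul_of_nonneg_left (pow_le_one₀ (z_pos _).le (z_le _)) (z_pos _).le
      _ = z (g i / T) := mul_one _

/-- integrals of nonnegative continuous functions against `m` -/
lemma int_m (h : Dat w g) {T : ℝ} (hT : 0 < T) {f : ℝ → ℝ} (hf : Continuous f)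
    (hf0 : ∀ x, 0 ≤ f x) (hs : Summable fun i => w i * g i ^ 2 / T * f (g i / T)) :
    Integrable f (m w g T) ∧ ∫ x, f x ∂(m w g T) = ∑' i, w i * g i ^ 2 / T * f (g i / T) := by
  have hl : ∫⁻ x, ENNReal.ofReal (f x) ∂(m w g T) =
      ∑' i, ENNReal.ofReal (w i * g i ^ 2 / T * f (g i / T)) := by
    unfold m
    rw [lintegral_sum_measure]
    refine tsum_congr fun i => ?_
    rw [lintegral_smul_measure, lintegral_dirac, smul_eq_mul,
      ← ENNReal.ofReal_mul (coef_nonneg h hT i)]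
  have hnn : ∀ i, 0 ≤ w i * g i ^ 2 / T * f (g i / T) := fun i =>
    mul_nonneg (coef_nonneg h hT i) (hf0 _)
  have hl2 : ∫⁻ x, ENNReal.ofReal (f x) ∂(m w g T) =
      ENNReal.ofReal (∑' i, w i * g i ^ 2 / T * f (g i / T)) := by
    rw [hl, ENNReal.ofReal_tsum_of_nonneg hnn hs]
  have hint : Integrable f (m w g T) := by
    refine ⟨hf.aestronglyMeasurable, ?_⟩
    rw [hasFiniteIntegral_iff_ofReal (ae_of_all _ hf0), hl2]
    exact ENNReal.ofReal_lt_top
  refine ⟨hint, ?_⟩
  rw [integral_eq_lintegral_of_nonneg_ae (ae_of_all _ hf0) hf.aestronglyMeasurable, hl2,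
    ENNReal.toReal_ofReal (tsum_nonneg hnn)]

/-- the window -/
lemma win_m (h : Dat w g) {T : ℝ} (hT : 0 < T) :
    (m w g T).real (z ⁻¹' (Icc (z 1) 2)) = AA w g T / T := by
  have hE : MeasurableSet (z ⁻¹' (Icc (z 1) 2)) := z_cont.measurable measurableSet_Icc
  unfold m AA
  rw [Measure.real, Measure.sum_apply _ hE, ENNReal.tsum_toReal_eq, ← tsum_div_const]
  · refine tsum_congr fun i => ?_
    have hmem : g i / T ∈ z ⁻¹' (Icc (z 1) 2) ↔ g i ≤ T := by
      simp only [mem_preimage, mem_Icc]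
      have h1 : z (g i / T) ≤ 2 := (z_le _).trans (by norm_num)
      have h2 : 0 ≤ g i / T := div_nonneg (h.g0 i) hT.le
      simp only [h1, and_true]
      unfold z
      rw [Real.exp_le_exp, neg_le_neg_iff, ← div_le_one hT]
      constructor
      · intro h3
        nlinarith
      · intro h3
        nlinarith
    rw [Measure.smul_apply, Measure.dirac_apply' _ hE, smul_eq_mul]
    by_cases hi : g i ≤ T
    · rw [indicator_of_mem (hmem.2 hi), if_pos hi]
      simp only [Pi.one_apply, mul_one]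
      rw [ENNReal.toReal_ofReal (coef_nonneg h hT i)]
    · rw [indicator_of_notMem (fun h' => hi (hmem.1 h')), if_neg hi]
      simp
  · intro i
    rw [Measure.smul_apply, smul_eq_mul]
    exact ENNReal.mul_ne_top ENNReal.ofReal_ne_top (measure_ne_top _ _)

lemma int_mk (h : Dat w g) {T : ℝ} (hT : 0 < T) (k : ℕ) :
    ∫ x, z x * z x ^ k ∂(m w g T) =
      (√((k : ℝ) + 1))⁻¹ * ((√((k : ℝ) + 1) / T) * GG w g (√((k : ℝ) + 1) / T)) := by
  have hk : (0 : ℝ) < (k : ℝ) + 1 := by positivity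
  have hsk : (√((k : ℝ) + 1)) ^ 2 = (k : ℝ) + 1 := Real.sq_sqrt hk.le
  have hsk0 : 0 < √((k : ℝ) + 1) := Real.sqrt_pos.2 hk
  rw [(int_m h hT (f := fun x => z x * z x ^ k) (z_cont.mul (z_cont.pow k))
    (fun x => mul_nonneg (z_pos _).le (pow_nonneg (z_pos _).le _)) (summ_k h hT k)).2]
  have e1 : (√((k : ℝ) + 1))⁻¹ * ((√((k : ℝ) + 1) / T) * GG w g (√((k : ℝ) + 1) / T)) =
      T⁻¹ * GG w g (√((k : ℝ) + 1) / T) := by
    field_simp
  rw [e1]
  unfold GG
  rw [← tsum_mul_left]
  refine tsum_congr fun i => ?_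
  rw [z_pow]
  have e2 : g i ^ 2 * (√((k : ℝ) + 1) / T) ^ 2 / 2 = ((k : ℝ) + 1) * (g i / T) ^ 2 / 2 := by
    rw [div_pow, hsk]
    ring
  rw [e2]
  ring

end

theorem t_L7 : Pool.Agent.H474.MS.S_L7 := by
  intro ι _ w g h c hc
  -- `c ≥ 0`
  have hc0 : 0 ≤ c := by
    refine ge_of_tendsto hc ?_
    filter_upwards [self_mem_nhdsWithin] with y hy
    refine mul_nonneg (le_of_lt hy) (tsum_nonneg fun i => ?_)
    have := h.w0 i
    positivity
  obtain ⟨C, hC⟩ : ∃ C : ℝ, C = c * √(2 / Real.pi) := ⟨_, rfl⟩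
  have hC0 : 0 ≤ C := by rw [hC]; positivity
  obtain ⟨M, hM⟩ : ∃ M : Measure ℝ, M = ENNReal.ofReal C • volume.restrict (Ioi (0 : ℝ)) :=
    ⟨_, rfl⟩
  have hnull : ∀ t : ℝ, M {t} = 0 := by
    intro t
    rw [hM, Measure.smul_apply, Measure.restrict_apply (measurableSet_singleton t)]
    have : volume ({t} ∩ Ioi (0 : ℝ)) = 0 :=
      le_antisymm ((measure_mono inter_subset_left).trans (by simp)) bot_le
    rw [this]
    simp
  have iM : Integrable z M := by
    rw [hM]
    refine Integrable.smul_measure ?_ ENNReal.ofReal_ne_top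
    have h1 : Integrable (fun x : ℝ => Real.exp (-(1 / 2 : ℝ) * x ^ 2)) :=
      integrable_exp_neg_mul_sq (by norm_num)
    refine (h1.congr (ae_of_all _ fun x => ?_)).integrableOn
    unfold z
    simp only
    congr 1
    ring
  have hfin : ∀ᶠ T : ℝ in atTop, Integrable z (m w g T) := by
    filter_upwards [eventually_gt_atTop (0 : ℝ)] with T hT
    exact (int_m h hT z_cont (fun x => (z_pos x).le) (summ h hT)).1
  have hmom : ∀ k : ℕ, Tendsto (fun T : ℝ => ∫ x, z x * z x ^ k ∂(m w g T)) atTop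
      (𝓝 (∫ x, z x * z x ^ k ∂M)) := by
    intro k
    have hk : (0 : ℝ) < (k : ℝ) + 1 := by positivity
    have hsk0 : 0 < √((k : ℝ) + 1) := Real.sqrt_pos.2 hk
    have hlim : ∫ x, z x * z x ^ k ∂M = (√((k : ℝ) + 1))⁻¹ * c := by
      rw [hM, integral_smul_measure, ENNReal.toReal_ofReal hC0]
      have e1 : ∫ x in Ioi (0 : ℝ), z x * z x ^ k =
          ∫ x in Ioi (0 : ℝ), Real.exp (-(((k : ℝ) + 1) / 2) * x ^ 2) := by
        refine setIntegral_congr_fun measurableSet_Ioi fun x _ => ?_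
        rw [z_pow]
        congr 1
        ring
      rw [e1, integral_gaussian_Ioi, smul_eq_mul, hC]
      have e2 : √(2 / Real.pi) * √(Real.pi / (((k : ℝ) + 1) / 2)) = 2 * (√((k : ℝ) + 1))⁻¹ := by
        rw [← Real.sqrt_mul (by positivity)]
        have e3 : 2 / Real.pi * (Real.pi / (((k : ℝ) + 1) / 2)) = 2 ^ 2 * ((k : ℝ) + 1)⁻¹ := by
          have := Real.pi_pos
          field_simp
        rw [e3, Real.sqrt_mul (by positivity), Real.sqrt_sq (by norm_num), Real.sqrt_inv]
      calc c * √(2 / Real.pi) * (√(Real.pi / (((k : ℝ) + 1) / 2)) / 2)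
          = c * (√(2 / Real.pi) * √(Real.pi / (((k : ℝ) + 1) / 2))) / 2 := by ring
        _ = (√((k : ℝ) + 1))⁻¹ * c := by rw [e2]; ring
    rw [hlim]
    have t1 : Tendsto (fun T : ℝ => √((k : ℝ) + 1) / T) atTop (𝓝[>] 0) := by
      refine tendsto_nhdsWithin_iff.2 ⟨tendsto_const_nhds.div_atTop tendsto_id, ?_⟩
      filter_upwards [eventually_gt_atTop (0 : ℝ)] with T hT
      exact div_pos hsk0 hT
    have t2 := (hc.comp t1).const_mul (√((k : ℝ) + 1))⁻¹
    refine t2.congr' ?_
    filter_upwards [eventually_gt_atTop (0 : ℝ)] with T hT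
    exact (int_mk h hT k).symm
  have n1 : M (z ⁻¹' {z 1}) = 0 := by
    have hsub : z ⁻¹' {z 1} ⊆ {1} ∪ {-1} := by
      intro x hx
      have hx' : z x = z 1 := hx
      unfold z at hx'
      rw [Real.exp_eq_exp] at hx'
      have h2 : (x - 1) * (x + 1) = 0 := by nlinarith
      rcases mul_eq_zero.1 h2 with h3 | h3
      · left; simp only [mem_singleton_iff]; linarith
      · right; simp only [mem_singleton_iff]; linarith
    refine le_antisymm ((measure_mono hsub).trans ?_) bot_le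
    refine (measure_union_le _ _).trans ?_
    rw [hnull, hnull, add_zero]
  have n2 : M (z ⁻¹' {2}) = 0 := by
    have hsub : z ⁻¹' {2} = ∅ := by
      ext x
      simp only [mem_preimage, mem_singleton_iff, mem_empty_iff_false, iff_false]
      intro hx
      have := z_le x
      linarith
    rw [hsub]
    exact measure_empty
  have key := Pool.Agent.Q128.GM.tendsto_window' (l := atTop) (m := fun T : ℝ => m w g T) (M := M)
    z_cont z_pos z_le hfin iM hmom (z_pos 1) n1 n2
  have hMr : M.real (z ⁻¹' (Icc (z 1) 2)) = C := by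
    have hE : MeasurableSet (z ⁻¹' (Icc (z 1) 2)) := z_cont.measurable measurableSet_Icc
    have e1 : z ⁻¹' (Icc (z 1) 2) ∩ Ioi (0 : ℝ) = Ioc 0 1 := by
      ext x
      simp only [mem_inter_iff, mem_preimage, mem_Icc, mem_Ioi, mem_Ioc]
      constructor
      · rintro ⟨⟨h1, _⟩, h2⟩
        refine ⟨h2, ?_⟩
        unfold z at h1
        rw [Real.exp_le_exp, neg_le_neg_iff] at h1
        nlinarith
      · rintro ⟨h1, h2⟩
        refine ⟨⟨?_, (z_le _).trans (by norm_num)⟩, h1⟩
        unfold z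
        rw [Real.exp_le_exp, neg_le_neg_iff]
        nlinarith
    rw [Measure.real, hM, Measure.smul_apply, Measure.restrict_apply hE, e1, Real.volume_Ioc]
    simp [hC0]
  rw [hMr, hC] at key
  refine key.congr' ?_
  filter_upwards [eventually_gt_atTop (0 : ℝ)] with T hT
  exact win_m h hT

end Pool.Agent.H664.MS.L7
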